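import Pool.Agent.Y994.KW.Stm

/-!
# Stream functions of lattice paths
-/

set_option autoImplicit false

namespace Y665.KW

open Y994.KW Finset

open Classical in
/-- indicator of a state -/
noncomputable def ind (s t : St) : ℤ := if s = t then 1 else 0

lemma ind_tl {s t : St} (h : tl s ≠ tl t) : ind s t = 0 := by
  unfold ind
  rw [if_neg (fun e => h (by rw [e]))]

lemma ind_rev (s : St) (x y : Pt) : ind (rev s) (x, y) = ind s (y, x) := by
  unfold ind rev
  by_cases h : s = (y, x)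
  · rw [if_pos h, h, if_pos rfl]
  · rw [if_neg h, if_neg (fun e => h (by
      rw [Prod.mk.injEq] at e
      rw [← e.1, ← e.2]))]

lemma ind_tlr {s : St} {x y : Pt} (h : tl (rev s) ≠ tl (x, y)) : ind s (y, x) = 0 := by
  rw [← ind_rev]
  exact ind_tl h

lemma fl_eq (s : ℕ → St) (k : ℕ) (x y : Pt) :
    fl s k x y = ∑ i ∈ range (k + 1), (ind (s i) (x, y) - ind (s i) (y, x)) := by
  unfold fl ind
  rw [sum_sub_distrib, Finset.sum_boole, Finset.sum_boole]

lemma fl_symm (s : ℕ → St) (k : ℕ) (x y : Pt) : fl s k y x = -fl s k x y := by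
  unfold fl
  ring

lemma tele (s : ℕ → St) (k : ℕ) (f g : St → ℤ) (h : ∀ i < k, f (s i) = g (s (i + 1)))
    (hk : f (s k) = 0) (h0 : g (s 0) = 0) : ∑ i ∈ range (k + 1), (f (s i) - g (s i)) = 0 := by
  rw [sum_sub_distrib, sum_range_succ, hk, sum_range_succ' (fun i => g (s i)), h0,
    sum_congr rfl (fun i hi => h i (mem_range.1 hi))]
  ring

lemma tl_up (q t : ℤ) : tl ((q, t), (q + 1, t)) = (q, t) := by
  simp [tl, rot]

lemma tl_dn (q t : ℤ) : tl ((q + 1, t), (q, t)) = (q, t - 1) := by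
  simp [tl, rot]; rfl

lemma tl_lf (q t : ℤ) : tl ((q, t), (q, t + 1)) = (q - 1, t) := by
  simp [tl, rot]; rfl

lemma tl_rt (q t : ℤ) : tl ((q, t + 1), (q, t)) = (q, t) := by
  simp [tl, rot]

/-- a step stays in the same tile -/
lemma tl_stp {s s' : St} (h : Ok s) (h' : Stp s s') : tl (rev s') = tl s := by
  obtain ⟨q, t, h⟩ := h
  rcases h with rfl | rfl | rfl | rfl <;> rcases h' with rfl | rfl <;>
    simp only [up, dn, rev, rot, tl, Prod.mk.injEq, Prod.mk_sub_mk, Prod.mk_add_mk] <;> omega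

lemma Ok.rev' {s : St} (h : Ok s) : Ok (rev s) := by
  obtain ⟨q, t, h⟩ := h
  rcases h with rfl | rfl | rfl | rfl
  · exact ⟨q, t, Or.inr (Or.inl rfl)⟩
  · exact ⟨q, t, Or.inl rfl⟩
  · exact ⟨q, t, Or.inr (Or.inr (Or.inr rfl))⟩
  · exact ⟨q, t, Or.inr (Or.inr (Or.inl rfl))⟩

/-- the four states in a tile -/
lemma four {s : St} (h : Ok s) {j t : ℤ} (ht : tl s = (j, t)) : s = ((j, t), (j + 1, t)) ∨
    s = ((j + 1, t), (j + 1, t + 1)) ∨ s = ((j + 1, t + 1), (j, t + 1)) ∨ s = ((j, t + 1), (j, t)) := by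
  obtain ⟨q, r, h⟩ := h
  rcases h with rfl | rfl | rfl | rfl
  · rw [up, tl_up, Prod.mk.injEq] at ht
    obtain ⟨rfl, rfl⟩ := ht
    exact Or.inl rfl
  · rw [dn, tl_dn, Prod.mk.injEq] at ht
    obtain ⟨rfl, rfl⟩ := ht
    right; right; left
    rw [dn, sub_add_cancel]
  · rw [tl_lf, Prod.mk.injEq] at ht
    obtain ⟨rfl, rfl⟩ := ht
    right; left
    rw [sub_add_cancel]
  · rw [tl_rt, Prod.mk.injEq] at ht
    obtain ⟨rfl, rfl⟩ := ht
    right; right; right
    rfl

lemma tl_dn' (j t : ℤ) : tl ((j + 1, t + 1), (j, t + 1)) = (j, t) := by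
  rw [tl_dn, add_sub_cancel_right]

lemma tl_lf' (j t : ℤ) : tl ((j + 1, t), (j + 1, t + 1)) = (j, t) := by
  rw [tl_lf, add_sub_cancel_right]

/-- the number of the tile -/
noncomputable def FF (j t : ℤ) (s : St) : ℤ := ind s ((j, t), (j + 1, t)) + ind s ((j + 1, t), (j + 1, t + 1)) +
  ind s ((j + 1, t + 1), (j, t + 1)) + ind s ((j, t + 1), (j, t))

lemma FF_one {s : St} (h : Ok s) {j t : ℤ} (ht : tl s = (j, t)) : FF j t s = 1 := by
  rcases four h ht with rfl | rfl | rfl | rfl <;> simp [FF, ind]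

lemma FF_zero {s : St} {j t : ℤ} (ht : tl s ≠ (j, t)) : FF j t s = 0 := by
  unfold FF
  rw [ind_tl (by rw [tl_up]; exact ht), ind_tl (by rw [tl_lf']; exact ht), ind_tl (by rw [tl_dn']; exact ht),
    ind_tl (by rw [tl_rt]; exact ht)]
  rfl

section
variable {x0 x1 u v : ℤ} {s : ℕ → St} {k : ℕ} (hok : ∀ i ≤ k, Ok (s i))
  (hst : ∀ i < k, Stp (s i) (s (i + 1)) ∨ (tl (s i) ∉ TR x0 x1 u v ∧ tl (rev (s (i + 1))) ∉ TR x0 x1 u v))
  (hk : tl (s k) ∉ TR x0 x1 u v) (h0 : tl (rev (s 0)) ∉ TR x0 x1 u v)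
include hok hst hk h0

/-- the flow around a tile is zero -/
lemma tile {j t : ℤ} (hτ : (j, t) ∈ TR x0 x1 u v) : fl s k (j, t) (j + 1, t) + fl s k (j + 1, t) (j + 1, t + 1) +
    fl s k (j + 1, t + 1) (j, t + 1) + fl s k (j, t + 1) (j, t) = 0 := by
  rw [fl_eq, fl_eq, fl_eq, fl_eq, ← sum_add_distrib, ← sum_add_distrib, ← sum_add_distrib]
  rw [← tele s k (FF j t) (fun s => FF j t (rev s))]
  · refine sum_congr rfl fun i _ => ?_
    simp only [FF, ind_rev]
    ring
  · intro i hi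
    rcases hst i hi with h | ⟨h1, h2⟩
    · have e := tl_stp (hok i hi.le) h
      by_cases h3 : tl (s i) = (j, t)
      · rw [FF_one (hok i hi.le) h3, FF_one (Ok.rev' (hok (i + 1) hi)) (by rw [e]; exact h3)]
      · rw [FF_zero h3, FF_zero (by rw [e]; exact h3)]
    · rw [FF_zero (fun h => h1 (by rw [h]; exact hτ)), FF_zero (fun h => h2 (by rw [h]; exact hτ))]
  · exact FF_zero (fun h => hk (by rw [h]; exact hτ))
  · exact FF_zero (fun h => h0 (by rw [h]; exact hτ))

/-- the flow through the open diagonal -/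
lemma diag (σ : Cfg) (hσ : ∀ i < k, tl (s i) ∈ TR x0 x1 u v → s (i + 1) = nxt σ (s i)) {j t : ℤ}
    (hτ : (j, t) ∈ TR x0 x1 u v) :
    (σ j t = false → fl s k (j, t) (j + 1, t) + fl s k (j + 1, t) (j + 1, t + 1) = 0) ∧
    (σ j t = true → fl s k (j + 1, t) (j + 1, t + 1) + fl s k (j + 1, t + 1) (j, t + 1) = 0) := by
  have key : ∀ i < k, (tl (s i) = (j, t) ∧ s (i + 1) = nxt σ (s i)) ∨
      (tl (s i) ≠ (j, t) ∧ tl (rev (s (i + 1))) ≠ (j, t)) := by
    intro i hi
    rcases hst i hi with h | ⟨h1, h2⟩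
    · rw [tl_stp (hok i hi.le) h]
      by_cases h3 : tl (s i) = (j, t)
      · left
        exact ⟨h3, hσ i hi (by rw [h3]; exact hτ)⟩
      · right; exact ⟨h3, h3⟩
    · right
      exact ⟨fun h => h1 (by rw [h]; exact hτ), fun h => h2 (by rw [h]; exact hτ)⟩
  have hk' : tl (s k) ≠ (j, t) := fun h => hk (by rw [h]; exact hτ)
  have h0' : tl (rev (s 0)) ≠ (j, t) := fun h => h0 (by rw [h]; exact hτ)
  constructor
  · intro hf
    rw [fl_eq, fl_eq, ← sum_add_distrib]
    rw [← tele s k (fun s => ind s ((j, t), (j + 1, t)) + ind s ((j + 1, t), (j + 1, t + 1)))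
      (fun s => ind s ((j + 1, t + 1), (j + 1, t)) + ind s ((j + 1, t), (j, t)))]
    · refine sum_congr rfl fun i _ => ?_
      ring
    · intro i hi
      rcases key i hi with ⟨h1, h3⟩ | ⟨h1, h2⟩
      · rw [h3]
        rcases four (hok i hi.le) h1 with h | h | h | h <;> rw [h]
        · have e : nxt σ ((j, t), (j + 1, t)) = ((j + 1, t + 1), (j + 1, t)) := by
            simp [nxt, tl_up, hf, rot]
          rw [e]; simp [ind]
        · have e : nxt σ ((j + 1, t), (j + 1, t + 1)) = ((j + 1, t), (j, t)) := by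
            simp [nxt, tl_lf', hf, rot]
          rw [e]; simp [ind]
        · have e : nxt σ ((j + 1, t + 1), (j, t + 1)) = ((j, t), (j, t + 1)) := by
            simp [nxt, tl_dn', hf, rot]
          rw [e]; simp [ind]
        · have e : nxt σ ((j, t + 1), (j, t)) = ((j, t + 1), (j + 1, t + 1)) := by
            simp [nxt, tl_rt, hf, rot]
          rw [e]; simp [ind]
      · rw [ind_tl (by rw [tl_up]; exact h1), ind_tl (by rw [tl_lf']; exact h1),
          ind_tlr (by rw [tl_lf']; exact h2), ind_tlr (by rw [tl_up]; exact h2)]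
    · rw [ind_tl (by rw [tl_up]; exact hk'), ind_tl (by rw [tl_lf']; exact hk')]
      rfl
    · rw [ind_tlr (by rw [tl_lf']; exact h0'), ind_tlr (by rw [tl_up]; exact h0')]
      rfl
  · intro hf
    rw [fl_eq, fl_eq, ← sum_add_distrib]
    rw [← tele s k (fun s => ind s ((j + 1, t), (j + 1, t + 1)) + ind s ((j + 1, t + 1), (j, t + 1)))
      (fun s => ind s ((j, t + 1), (j + 1, t + 1)) + ind s ((j + 1, t + 1), (j + 1, t)))]
    · refine sum_congr rfl fun i _ => ?_
      ring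
    · intro i hi
      rcases key i hi with ⟨h1, h3⟩ | ⟨h1, h2⟩
      · rw [h3]
        rcases four (hok i hi.le) h1 with h | h | h | h <;> rw [h]
        · have e : nxt σ ((j, t), (j + 1, t)) = ((j, t), (j, t + 1)) := by
            simp [nxt, tl_up, hf, rot]
          rw [e]; simp [ind]
        · have e : nxt σ ((j + 1, t), (j + 1, t + 1)) = ((j, t + 1), (j + 1, t + 1)) := by
            simp [nxt, tl_lf', hf, rot]
          rw [e]; simp [ind]
        · have e : nxt σ ((j + 1, t + 1), (j, t + 1)) = ((j + 1, t + 1), (j + 1, t)) := by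
            simp [nxt, tl_dn', hf, rot]
          rw [e]; simp [ind]
        · have e : nxt σ ((j, t + 1), (j, t)) = ((j + 1, t), (j, t)) := by
            simp [nxt, tl_rt, hf, rot]
          rw [e]; simp [ind]
      · rw [ind_tl (by rw [tl_lf']; exact h1), ind_tl (by rw [tl_dn']; exact h1),
          ind_tlr (by rw [tl_dn']; exact h2), ind_tlr (by rw [tl_lf']; exact h2)]
    · rw [ind_tl (by rw [tl_lf']; exact hk'), ind_tl (by rw [tl_dn']; exact hk')]
      rfl
    · rw [ind_tlr (by rw [tl_dn']; exact h0'), ind_tlr (by rw [tl_lf']; exact h0')]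
      rfl

end

theorem t_FLOW : S_FLOW := by
  intro x0 x1 u v s k hx huv hok hst hk h0
  have htile : ∀ j t : ℤ, (j, t) ∈ TR x0 x1 u v → fl s k (j, t) (j + 1, t) + fl s k (j + 1, t) (j + 1, t + 1) +
    fl s k (j + 1, t + 1) (j, t + 1) + fl s k (j, t + 1) (j, t) = 0 := fun j t hτ => tile hok hst hk h0 hτ
  obtain ⟨H, hH⟩ : ∃ H : Pt → ℤ, ∀ a b : ℕ, H (x0 + a, u + b) =
      ∑ i ∈ range a, fl s k (x0 + i, u) (x0 + i + 1, u) + ∑ i ∈ range b, fl s k (x0 + a, u + i) (x0 + a, u + i + 1) := by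
    refine ⟨fun p => ∑ i ∈ range (p.1 - x0).toNat, fl s k (x0 + i, u) (x0 + i + 1, u) +
      ∑ i ∈ range (p.2 - u).toNat, fl s k (p.1, u + i) (p.1, u + i + 1), fun a b => ?_⟩
    dsimp only
    rw [show (x0 + (a : ℤ) - x0).toNat = a by omega, show (u + (b : ℤ) - u).toNat = b by omega]
  have hv : ∀ a b : ℕ, H (x0 + a, u + b + 1) - H (x0 + a, u + b) = fl s k (x0 + a, u + b) (x0 + a, u + b + 1) := by
    intro a b
    have h1 := hH a (b + 1)
    rw [sum_range_succ] at h1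
    push_cast at h1
    rw [← add_assoc] at h1
    rw [h1, hH a b]
    ring
  have hh : ∀ a b : ℕ, x0 + a + 1 ≤ x1 → u + b ≤ v →
      H (x0 + a + 1, u + b) - H (x0 + a, u + b) = fl s k (x0 + a, u + b) (x0 + a + 1, u + b) := by
    intro a b ha hb
    induction b with
    | zero =>
      have h1 := hH (a + 1) 0
      have h2 := hH a 0
      rw [sum_range_succ] at h1
      simp only [range_zero, sum_empty, add_zero, Nat.cast_add, Nat.cast_one, Nat.cast_zero] at h1 h2 ⊢
      rw [← add_assoc] at h1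
      rw [h1, h2]
      ring
    | succ b ih =>
      have h1 := ih (by push_cast at hb; linarith)
      have h2 := hv a b
      have h3 := hv (a + 1) b
      have h4 := htile (x0 + a) (u + b) ⟨by dsimp only; omega, by dsimp only; omega, by dsimp only; omega,
        by dsimp only; push_cast at hb; omega⟩
      push_cast at h3 ⊢
      rw [← add_assoc] at h3
      rw [← add_assoc u (b : ℤ) 1]
      have h5 := fl_symm s k (x0 + a, u + b + 1) (x0 + a + 1, u + b + 1)
      have h6 := fl_symm s k (x0 + a, u + b) (x0 + a, u + b + 1)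
      linarith
  have hnat : ∀ p ∈ CR x0 x1 u v, ∃ a b : ℕ, p = (x0 + a, u + b) ∧ x0 + a ≤ x1 ∧ u + b ≤ v := by
    rintro ⟨p, q⟩ ⟨h1, h2, h3, h4⟩
    dsimp only at h1 h2 h3 h4
    refine ⟨(p - x0).toNat, (q - u).toNat, ?_, by omega, by omega⟩
    ext <;> dsimp only <;> omega
  have hU : ∀ q t : ℤ, (q, t) ∈ CR x0 x1 u v → (q + 1, t) ∈ CR x0 x1 u v →
      H (q + 1, t) - H (q, t) = fl s k (q, t) (q + 1, t) := by
    intro q t h1 h2
    obtain ⟨a, b, h3, h4, h5⟩ := hnat _ h1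
    rw [Prod.mk.injEq] at h3
    obtain ⟨rfl, rfl⟩ := h3
    exact hh a b h2.2.1 h5
  have hV : ∀ q t : ℤ, (q, t) ∈ CR x0 x1 u v → (q, t + 1) ∈ CR x0 x1 u v →
      H (q, t + 1) - H (q, t) = fl s k (q, t) (q, t + 1) := by
    intro q t h1 h2
    obtain ⟨a, b, h3, h4, h5⟩ := hnat _ h1
    rw [Prod.mk.injEq] at h3
    obtain ⟨rfl, rfl⟩ := h3
    exact hv a b
  refine ⟨H, ?_, ?_, ?_⟩
  · have := hH 0 0
    simpa using this
  · intro x hx y hy hxy
    obtain ⟨q, t, h⟩ := hxy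
    rcases h with h | h | h | h <;> simp only [up, dn, Prod.mk.injEq] at h <;> obtain ⟨rfl, rfl⟩ := h
    · exact hU q t hx hy
    · rw [fl_symm, ← hU q t hy hx]; ring
    · exact hV q t hx hy
    · rw [fl_symm, ← hV q t hy hx]; ring
  · intro σ hσ
    have hd := fun j t (hτ : (j, t) ∈ TR x0 x1 u v) => diag hok hst hk h0 σ hσ hτ
    have key1 : ∀ j t : ℤ, (j, t) ∈ CR x0 x1 u v → (j + 1, t + 1) ∈ CR x0 x1 u v → σ j t = false →
        H (j + 1, t + 1) = H (j, t) := by
      intro j t h1 h2 h3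
      obtain ⟨a1, a2, a3, a4⟩ := h1
      obtain ⟨b1, b2, b3, b4⟩ := h2
      dsimp only at a1 a2 a3 a4 b1 b2 b3 b4
      have e1 := (hd j t ⟨by dsimp only; omega, by dsimp only; omega, by dsimp only; omega, by dsimp only; omega⟩).1 h3
      have e2 := hU j t ⟨a1, a2, a3, a4⟩ ⟨b1, b2, a3, a4⟩
      have e3 := hV (j + 1) t ⟨b1, b2, a3, a4⟩ ⟨b1, b2, b3, b4⟩
      linarith
    have key2 : ∀ j t : ℤ, (j + 1, t) ∈ CR x0 x1 u v → (j, t + 1) ∈ CR x0 x1 u v → σ j t = true →
        H (j, t + 1) = H (j + 1, t) := by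
      intro j t h1 h2 h3
      obtain ⟨a1, a2, a3, a4⟩ := h1
      obtain ⟨b1, b2, b3, b4⟩ := h2
      dsimp only at a1 a2 a3 a4 b1 b2 b3 b4
      have e1 := (hd j t ⟨by dsimp only; omega, by dsimp only; omega, by dsimp only; omega, by dsimp only; omega⟩).2 h3
      have e2 := hU j (t + 1) ⟨b1, b2, b3, b4⟩ ⟨a1, a2, b3, b4⟩
      have e3 := hV (j + 1) t ⟨a1, a2, a3, a4⟩ ⟨a1, a2, b3, b4⟩
      have e4 := fl_symm s k (j, t + 1) (j + 1, t + 1)
      linarith
    rintro ⟨p, q⟩ hx ⟨p', q'⟩ hy hxy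
    rcases hxy with ⟨h1, h2⟩ | ⟨h1, h2⟩ | ⟨h1, h2⟩ | ⟨h1, h2⟩ <;> simp only [Prod.mk_add_mk, Prod.mk.injEq] at h1 h2 <;>
      obtain ⟨h3, h4⟩ := h1
    · subst h3; subst h4
      exact (key1 p q hx hy h2).symm
    · subst h3; subst h4
      exact key1 p' q' hy hx h2
    · subst h4
      obtain rfl : p = p' + 1 := by omega
      exact (key2 p' q hx hy h2).symm
    · subst h4
      obtain rfl : p' = p + 1 := by omega
      exact key2 p q' hy hx h2

end Y665.KW
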